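import Pool.Agent.Helper89.Vol4.Goals

/-!
# Packet V47-Q212 (MP_cd13d2_co): the planar inequality for the pattern 212
-/

set_option autoImplicit false

namespace Pool.Agent.Helper69.Vol4.PkQ212

open Pool.Agent.Helper89.Vol4

/-- the factors `α`, `β` -/
theorem factors (L : ℝ) (h0 : 0 ≤ L) (h1 : L ≤ 1) : ∃ α β : ℝ, 0 ≤ α ∧ 0 < β ∧ α * β = L ∧
    α ≤ 1 ∧ L ≤ β ∧ α * L ≤ β ^ 2 ∧ α ≤ β ∧ β ^ 2 * (4 - L) = 3 := by
  have h4 : (0 : ℝ) < 4 - L := by linarith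
  have hq : (0 : ℝ) < 3 / (4 - L) := by positivity
  set β : ℝ := √(3 / (4 - L)) with hβ
  have hβ0 : 0 < β := Real.sqrt_pos.2 hq
  have hβ2 : β ^ 2 = 3 / (4 - L) := Real.sq_sqrt hq.le
  have hβ3 : β ^ 2 * (4 - L) = 3 := by rw [hβ2]; field_simp
  have e1 : L ^ 2 * (4 - L) ≤ 3 := by nlinarith [mul_nonneg h0 (sub_nonneg.2 h1), sq_nonneg L]
  have e2 : L * (4 - L) ≤ 3 := by nlinarith
  have hL2 : L ^ 2 ≤ β ^ 2 := by
    rw [hβ2, le_div_iff₀ h4]; exact e1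
  have hLβ : L ≤ β := by
    have := abs_le_of_sq_le_sq hL2 hβ0.le
    exact (le_abs_self L).trans this
  have hL1 : L ≤ β ^ 2 := by
    rw [hβ2, le_div_iff₀ h4]; exact e2
  have hαβ : L / β ≤ β := by
    rw [div_le_iff₀ hβ0]; nlinarith
  have hα0 : 0 ≤ L / β := div_nonneg h0 hβ0.le
  refine ⟨L / β, β, hα0, hβ0, div_mul_cancel₀ L hβ0.ne', (div_le_one hβ0).2 hLβ, hLβ, ?_, hαβ, hβ3⟩
  calc L / β * L ≤ β * β := mul_le_mul hαβ hLβ h0 hβ0.le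
    _ = β ^ 2 := (sq β).symm

theorem thm (h : G_J3) : G_Q212 := by
  intro l1 l2 b0 b1 t0 t1 v0 v1 w0 hl1 hl1' hl2 hl2' hvw H1 H2 H3 H4 H5 H6 H7 H8 H9 H10
  have hL0 : 0 ≤ l1 * l2 := mul_nonneg hl1 hl2
  have hL1 : l1 * l2 ≤ 1 := mul_le_one₀ hl1' hl2 hl2'
  have hLsq : 2 * (l1 * l2) ≤ l1 ^ 2 + l2 ^ 2 := by nlinarith only [sq_nonneg (l1 - l2)]
  generalize hL : l1 * l2 = L at hL0 hL1 hLsq ⊢
  obtain ⟨α, β, hα0, hβ0, hαβ, hα1, hLβ, hαL, hαβ', hβ3⟩ := factors L hL0 hL1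
  obtain ⟨n, hn⟩ : ∃ n : ℝ, n = (w0 - v0) / 2 := ⟨_, rfl⟩
  have hw : w0 = v0 + 2 * n := by linarith
  subst hw
  have hn0 : 0 ≤ n := by linarith only [hvw]
  have hn1 : n ≤ 1 / 2 := by nlinarith only [hn0, H10]
  have hαn : α * n ≤ n := by nlinarith only [hn0, hα1]
  have key := h (α * n) |v0 + n - t0| |v1 - t1| (L * |b0|) (L * |b1|) (β * |b1 - 2 * v1|)
    (mul_nonneg hα0 hn0) (hαn.trans hn1) (abs_nonneg _) (abs_nonneg _)
    (mul_nonneg hL0 (abs_nonneg _)) (mul_nonneg hL0 (abs_nonneg _))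
    (mul_nonneg hβ0.le (abs_nonneg _)) ?_ ?_ ?_
  · have e : (t0 * b1 - t1 * b0) + (b0 * v1 - b1 * v0) + (v0 * v1 - v1 * (v0 + 2 * n)) =
        -(v0 + n - t0) * b1 + (v1 - t1) * b0 + n * (b1 - 2 * v1) := by ring
    have hb : |(t0 * b1 - t1 * b0) + (b0 * v1 - b1 * v0) + (v0 * v1 - v1 * (v0 + 2 * n))| ≤
        |v0 + n - t0| * |b1| + |v1 - t1| * |b0| + n * |b1 - 2 * v1| := by
      rw [e]
      refine (abs_add_le _ _).trans (add_le_add ((abs_add_le _ _).trans (add_le_add ?_ ?_)) ?_)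
      · rw [abs_mul, abs_neg]
      · rw [abs_mul]
      · rw [abs_mul, abs_of_nonneg hn0]
    calc L * |(t0 * b1 - t1 * b0) + (b0 * v1 - b1 * v0) + (v0 * v1 - v1 * (v0 + 2 * n))|
        ≤ L * (|v0 + n - t0| * |b1| + |v1 - t1| * |b0| + n * |b1 - 2 * v1|) :=
          mul_le_mul_of_nonneg_left hb hL0
      _ = |v0 + n - t0| * (L * |b1|) + |v1 - t1| * (L * |b0|) +
            (α * n) * (β * |b1 - 2 * v1|) := by
          rw [← hαβ]; ring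
      _ ≤ 1.04 := key
  · -- `(k + N)² + M² ≤ 1`
    have h1 : |v0 + n - t0| + α * n ≤ |v0 + n - t0| + n := by linarith only [hαn]
    have h2 : (|v0 + n - t0| + α * n) ^ 2 ≤ (|v0 + n - t0| + n) ^ 2 :=
      pow_le_pow_left₀ (add_nonneg (abs_nonneg _) (mul_nonneg hα0 hn0)) h1 2
    have h3 : (|v0 + n - t0| + n) ^ 2 + |v1 - t1| ^ 2 ≤ 1 := by
      rw [sq_abs]
      rcases abs_cases (v0 + n - t0) with ⟨ha, _⟩ | ⟨ha, _⟩
      · rw [ha]; nlinarith only [H8, H9]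
      · rw [ha]; nlinarith only [H8, H9]
    linarith only [h2, h3]
  · -- `g1² + g2² ≤ 1/2`
    rw [mul_pow, mul_pow, sq_abs, sq_abs]
    have h1 : b0 ^ 2 + b1 ^ 2 ≤ 1 - L / 2 := by linarith only [H7, hLsq]
    have h2 := mul_le_mul_of_nonneg_left h1 (sq_nonneg L)
    have h3 : L ^ 2 * (1 - L / 2) ≤ 1 / 2 := by
      nlinarith only [mul_nonneg hL0 (sub_nonneg.2 hL1), sq_nonneg L, mul_nonneg (sq_nonneg L)
        (sub_nonneg.2 hL1), hL0, hL1]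
    linarith only [h2, h3]
  · -- the third condition
    have hs : (b1 - 2 * v1) ^ 2 + (b0 ^ 2 + b1 ^ 2) + 4 * n ^ 2 + 4 * (n * |b0|) ≤ 4 - L := by
      rcases abs_cases b0 with ⟨ha, _⟩ | ⟨ha, _⟩
      · rw [ha]
        nlinarith only [sq_nonneg (b0 - v0 - (v0 + 2 * n)), H2, H3, H5, H6, hLsq]
      · rw [ha]
        nlinarith only [sq_nonneg (b0 - v0 - (v0 + 2 * n)), H2, H3, H5, H6, hLsq]
    have hβ2 : 0 ≤ β ^ 2 := sq_nonneg β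
    have hL2 : L ^ 2 ≤ β ^ 2 := pow_le_pow_left₀ hL0 hLβ 2
    have hα2 : α ^ 2 ≤ β ^ 2 := pow_le_pow_left₀ hα0 hαβ' 2
    have k1 := mul_le_mul_of_nonneg_right hL2 (add_nonneg (sq_nonneg b0) (sq_nonneg b1))
    have k2 := mul_le_mul_of_nonneg_right hα2 (by positivity : 0 ≤ 4 * n ^ 2)
    have k3 := mul_le_mul_of_nonneg_right hαL (by positivity : 0 ≤ 4 * (n * |b0|))
    have k4 := mul_le_mul_of_nonneg_left hs hβ2
    have e1 : (β * |b1 - 2 * v1|) ^ 2 = β ^ 2 * (b1 - 2 * v1) ^ 2 := by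
      rw [mul_pow, sq_abs]
    have e2 : (L * |b0|) ^ 2 = L ^ 2 * b0 ^ 2 := by rw [mul_pow, sq_abs]
    have e3 : (L * |b1|) ^ 2 = L ^ 2 * b1 ^ 2 := by rw [mul_pow, sq_abs]
    have e4 : (α * n) ^ 2 = α ^ 2 * n ^ 2 := by rw [mul_pow]
    rw [e1, e2, e3]
    nlinarith only [k1, k2, k3, k4, hβ3, e4]

end Pool.Agent.Helper69.Vol4.PkQ212
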